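import Pool.Agent.Helper431.CycleIso

set_option autoImplicit false

namespace Pool.Agent.Results.MP_717ee4_co.DimEdimBound

open SimpleGraph

/-- Every finite connected simple graph with minimum degree at least two which is not a cycle has a
resolving set and an edge resolving set of size at most `2 c(G) - 1`, `c(G) = |E| - |V| + 1`. -/
theorem result (V : Type*) [Fintype V] [DecidableEq V] (G : SimpleGraph V) [DecidableRel G.Adj]
    (hconn : G.Connected) (hdeg : ∀ v : V, 2 ≤ G.degree v)
    (hcycle : ∀ n : ℕ, IsEmpty (G ≃g cycleGraph n)) :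
    (∃ S : Finset V,
      (S.card : ℤ) ≤ 2 * ((G.edgeFinset.card : ℤ) - (Fintype.card V : ℤ) + 1) - 1 ∧
      ∀ x y : V, x ≠ y → ∃ s ∈ S, G.dist s x ≠ G.dist s y) ∧
    (∃ S : Finset V,
      (S.card : ℤ) ≤ 2 * ((G.edgeFinset.card : ℤ) - (Fintype.card V : ℤ) + 1) - 1 ∧
      ∀ a b c d : V, G.Adj a b → G.Adj c d → s(a, b) ≠ s(c, d) →
        ∃ s ∈ S, min (G.dist s a) (G.dist s b) ≠ min (G.dist s c) (G.dist s d)) := by
  have h3 : ∃ v : V, 3 ≤ G.degree v := by
    by_contra hcon
    push Not at hcon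
    obtain ⟨n, ⟨e⟩⟩ := Pool.Agent.Helper431.exists_iso_cycleGraph hconn hdeg
      (fun v => by have := hcon v; omega)
    exact (hcycle n).false e
  exact ⟨Pool.Agent.Helper431.vertex_part V G hconn hdeg h3,
    Pool.Agent.Helper431.edge_part V G hconn hdeg h3⟩

end Pool.Agent.Results.MP_717ee4_co.DimEdimBound
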